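import Pool.Agent.Run7.h894.LK.Stm
import Pool.Agent.Helper717.LT.P_cutoff
import Pool.Agent.Helper717.LT.P_bco_pos
import Pool.Agent.Helper717.LT.P_pd_basic
import Pool.Agent.N537.RS.Cst2

/-!
# Project LK (helper894), piece CUT: without compact support
-/

set_option autoImplicit false

open MeasureTheory Set Filter Topology
open scoped Matrix

namespace Run7.h646.LK

open Pool.Agent.Run7.H894.LK

noncomputable section

/-- the Gram form is the integral of a square -/
theorem gram_eq {m n : ℕ} (v : Fin n → (Fin (m + 1) → ℝ) → ℝ)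
    (h : ∀ i j, Integrable fun z => Real.exp (2 * z 0) * (v i z * v j z)) (c : Fin n → ℝ) :
    bf (Matrix.of fun i j => ∫ z, Real.exp (2 * z 0) * (v i z * v j z)) c c =
      ∫ z, Real.exp (2 * z 0) * (∑ i, c i * v i z) ^ 2 := by
  have h1 : ∀ z : Fin (m + 1) → ℝ, Real.exp (2 * z 0) * (∑ i, c i * v i z) ^ 2 =
      ∑ i, ∑ j, c i * c j * (Real.exp (2 * z 0) * (v i z * v j z)) := by
    intro z
    rw [sq, Finset.sum_mul_sum, Finset.mul_sum]
    refine Finset.sum_congr rfl fun i _ => ?_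
    rw [Finset.mul_sum]
    exact Finset.sum_congr rfl fun j _ => by ring
  simp only [h1]
  rw [integral_finsetSum _ fun i _ => integrable_finsetSum _ fun j _ => (h i j).const_mul _]
  unfold bf
  refine Finset.sum_congr rfl fun i _ => ?_
  rw [integral_finsetSum _ fun j _ => (h i j).const_mul _]
  refine Finset.sum_congr rfl fun j _ => ?_
  rw [integral_const_mul]
  rfl

theorem cont_exp0 {m : ℕ} (a : ℝ) : Continuous fun z : Fin (m + 1) → ℝ => Real.exp (a * z 0) :=
  Real.continuous_exp.comp (continuous_const.mul (continuous_apply 0))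

/-- products are integrable -/
theorem int_mul {m : ℕ} {u v : (Fin (m + 1) → ℝ) → ℝ} (hu : Continuous u) (hv : Continuous v)
    (h1 : Integrable fun z => Real.exp (2 * z 0) * u z ^ 2)
    (h2 : Integrable fun z => Real.exp (2 * z 0) * v z ^ 2) :
    Integrable fun z => Real.exp (2 * z 0) * (u z * v z) := by
  refine Integrable.mono' (h1.add h2)
    ((cont_exp0 2).mul (hu.mul hv)).aestronglyMeasurable (Eventually.of_forall fun z => ?_)
  rw [Real.norm_eq_abs, abs_mul, abs_of_pos (Real.exp_pos _)]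
  change _ ≤ Real.exp (2 * z 0) * u z ^ 2 + Real.exp (2 * z 0) * v z ^ 2
  rw [← mul_add]
  refine mul_le_mul_of_nonneg_left ?_ (Real.exp_pos _).le
  rw [abs_mul]
  nlinarith [sq_nonneg (|u z| - |v z|), sq_abs (u z), sq_abs (v z), abs_nonneg (u z),
    abs_nonneg (v z), mul_nonneg (abs_nonneg (u z)) (abs_nonneg (v z))]

theorem pd_mul {m : ℕ} {χ w : (Fin m → ℝ) → ℝ} (hχ : ContDiff ℝ 1 χ) (hw : ContDiff ℝ 1 w)
    (j : Fin m) (x : Fin m → ℝ) :
    LTd.pd j (fun y => χ y * w y) x = χ x * LTd.pd j w x + w x * LTd.pd j χ x := by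
  have h1 : DifferentiableAt ℝ χ x := (hχ.differentiable one_ne_zero) x
  have h2 : DifferentiableAt ℝ w x := (hw.differentiable one_ne_zero) x
  unfold LTd.pd
  rw [fderiv_fun_mul h1 h2]
  simp

theorem cut_sq {χ a b c C : ℝ} (h0 : 0 ≤ χ) (h1 : χ ≤ 1) (hc : |c| ≤ C) :
    (χ * a + b * c) ^ 2 ≤ 2 * a ^ 2 + 2 * C ^ 2 * b ^ 2 := by
  have e1 : (χ * a + b * c) ^ 2 ≤ 2 * (χ * a) ^ 2 + 2 * (b * c) ^ 2 := by
    nlinarith [sq_nonneg (χ * a - b * c)]
  have e2 : (χ * a) ^ 2 ≤ a ^ 2 := by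
    rw [mul_pow]
    have : χ ^ 2 ≤ 1 := pow_le_one₀ h0 h1
    nlinarith [sq_nonneg a]
  have e3 : c ^ 2 ≤ C ^ 2 := by
    rw [← sq_abs c]
    exact pow_le_pow_left₀ (abs_nonneg _) hc 2
  have e4 : (b * c) ^ 2 ≤ C ^ 2 * b ^ 2 := by
    rw [mul_pow]
    nlinarith [sq_nonneg b]
  linarith

theorem Kp_pos {k : ℕ} (hk : 6 ≤ k) : 0 < Kp k := by
  have h1 := (Pool.Agent.N537.RS.CS.t_CST k hk).1
  have hk0 : (0 : ℝ) < k := by
    have : 0 < k := by omega
    exact_mod_cast this
  have hfac : (0 : ℝ) < ((k - 1).factorial : ℝ) := by exact_mod_cast Nat.factorial_pos _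
  unfold Kp
  exact mul_pos (by positivity) (Real.rpow_pos_of_pos (mul_pos (by positivity) h1) _)

theorem t_CUT (hK : S_KINY) : S_CUT := by
  intro k hk m n w hw i0 i1 i2 i3 lab g hg hB
  obtain ⟨C, hC⟩ := LTd.cutoff (m + 1)
  have hCN := fun N : ℕ => hC ((N : ℝ) + 1) (by
    have : (0 : ℝ) ≤ N := Nat.cast_nonneg N
    linarith)
  choose χ c1 c2 c3 c4 c5 using hCN
  have hC0 : 0 ≤ C := by
    have := (abs_nonneg _).trans (c5 0 0 0)
    simpa using this
  have hk0 : (0 : ℝ) < k := by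
    have : 0 < k := by omega
    exact_mod_cast this
  have hkm : (0 : ℝ) < (k : ℝ) + m := by positivity
  have hp : 0 < 1 + 2 / ((k : ℝ) + m) := by positivity
  have hb : 0 < LTd.bco ((m : ℝ) / 2) ((k : ℝ) / 2 + 1) (Kp k) :=
    LTd.bco_pos (by positivity) (by linarith) (Kp_pos hk)
  set p : ℝ := 1 + 2 / ((k : ℝ) + m) with hpdef
  set b := LTd.bco ((m : ℝ) / 2) ((k : ℝ) / 2 + 1) (Kp k) with hbdef
  -- the truncated functions
  set F : ℕ → Fin n → (Fin (m + 1) → ℝ) → ℝ := fun N i y => χ N y * w i y with hF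
  have f1 : ∀ N i, ContDiff ℝ 1 (F N i) := fun N i => (c1 N).mul (hw i)
  have f2 : ∀ N i, HasCompactSupport (F N i) := fun N i => (c2 N).mul_right
  have hpd : ∀ N i j x, LTd.pd j (F N i) x =
      χ N x * LTd.pd j (w i) x + w i x * LTd.pd j (χ N) x :=
    fun N i j x => pd_mul (c1 N) (hw i) j x
  have c5' : ∀ N j x, |LTd.pd j (χ N) x| ≤ C := by
    intro N j x
    refine (c5 N j x).trans (div_le_self hC0 ?_)
    have : (0 : ℝ) ≤ N := Nat.cast_nonneg N
    linarith
  have hev : ∀ z : Fin (m + 1) → ℝ, ∀ᶠ N : ℕ in atTop, χ N z = 1 := by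
    intro z
    filter_upwards [eventually_ge_atTop ⌈‖z‖⌉₊] with N hN
    apply c4 N z
    have h1 : ‖z‖ ≤ ⌈‖z‖⌉₊ := Nat.le_ceil _
    have h2 : ((⌈‖z‖⌉₊ : ℕ) : ℝ) ≤ N := by exact_mod_cast hN
    linarith
  have hχ1 : ∀ z : Fin (m + 1) → ℝ, Tendsto (fun N => χ N z) atTop (𝓝 1) := fun z =>
    tendsto_const_nhds.congr' ((hev z).mono fun N h => h.symm)
  have hχ2 : ∀ j (z : Fin (m + 1) → ℝ), Tendsto (fun N => LTd.pd j (χ N) z) atTop (𝓝 0) := by
    intro j z
    rw [tendsto_zero_iff_abs_tendsto_zero]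
    refine squeeze_zero (fun N => abs_nonneg _) (fun N => c5 N j z) ?_
    have := (tendsto_one_div_add_atTop_nhds_zero_nat (𝕜 := ℝ)).const_mul C
    rw [mul_zero] at this
    exact this.congr fun N => by ring
  have hFlim : ∀ i z, Tendsto (fun N => F N i z) atTop (𝓝 (w i z)) := by
    intro i z
    have := (hχ1 z).mul_const (w i z)
    rwa [one_mul] at this
  have hpdlim : ∀ i j z, Tendsto (fun N => LTd.pd j (F N i) z) atTop (𝓝 (LTd.pd j (w i) z)) := by
    intro i j z
    have h1 := ((hχ1 z).mul_const (LTd.pd j (w i) z)).add ((hχ2 j z).const_mul (w i z))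
    rw [one_mul, mul_zero, add_zero] at h1
    exact h1.congr fun N => (hpd N i j z).symm
  -- the energies
  have hE : ∀ i, Tendsto (fun N => ∫ z, (LTd.pd 0 (F N i) z ^ 2 + nu k (lab i) ^ 2 * F N i z ^ 2 +
      Real.exp (2 * z 0) * ∑ j : Fin m, LTd.pd j.succ (F N i) z ^ 2)) atTop
      (𝓝 (∫ z, (LTd.pd 0 (w i) z ^ 2 + nu k (lab i) ^ 2 * w i z ^ 2 +
      Real.exp (2 * z 0) * ∑ j : Fin m, LTd.pd j.succ (w i) z ^ 2))) := by
    intro i
    refine tendsto_integral_of_dominated_convergence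
      (fun z => 2 * LTd.pd 0 (w i) z ^ 2 + 2 * C ^ 2 * w i z ^ 2 + nu k (lab i) ^ 2 * w i z ^ 2 +
        ∑ j : Fin m, (2 * (Real.exp (2 * z 0) * LTd.pd j.succ (w i) z ^ 2) +
          2 * C ^ 2 * (Real.exp (2 * z 0) * w i z ^ 2))) ?_ ?_ ?_ ?_
    · intro N
      have g1 : ∀ j, Continuous (LTd.pd j (F N i)) := fun j => (LTd.pd_basic (f1 N i) (f2 N i) j).1
      have g2 : Continuous (F N i) := (f1 N i).continuous
      exact ((((g1 0).pow 2).add (continuous_const.mul (g2.pow 2))).add ((cont_exp0 2).mul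
        (continuous_finsetSum _ fun j _ => (g1 j.succ).pow 2))).aestronglyMeasurable
    · exact (((((i2 i).const_mul 2).add ((i1 i).const_mul (2 * C ^ 2))).add
        ((i1 i).const_mul _)).add (integrable_finsetSum _ fun j _ =>
          ((i3 i j).const_mul 2).add ((i0 i).const_mul (2 * C ^ 2))))
    · intro N
      refine Eventually.of_forall fun z => ?_
      have e0 : ∀ j, LTd.pd j (F N i) z ^ 2 ≤ 2 * LTd.pd j (w i) z ^ 2 + 2 * C ^ 2 * w i z ^ 2 := by
        intro j
        rw [hpd]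
        exact cut_sq (c3 N z).1 (c3 N z).2 (c5' N j z)
      have e1 : F N i z ^ 2 ≤ w i z ^ 2 := by
        change (χ N z * w i z) ^ 2 ≤ _
        rw [mul_pow]
        have : χ N z ^ 2 ≤ 1 := pow_le_one₀ (c3 N z).1 (c3 N z).2
        nlinarith [sq_nonneg (w i z)]
      have e2 : Real.exp (2 * z 0) * ∑ j : Fin m, LTd.pd j.succ (F N i) z ^ 2 ≤
          ∑ j : Fin m, (2 * (Real.exp (2 * z 0) * LTd.pd j.succ (w i) z ^ 2) +
          2 * C ^ 2 * (Real.exp (2 * z 0) * w i z ^ 2)) := by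
        rw [Finset.mul_sum]
        refine Finset.sum_le_sum fun j _ => ?_
        have := mul_le_mul_of_nonneg_left (e0 j.succ) (Real.exp_pos (2 * z 0)).le
        linarith
      have e3 := mul_le_mul_of_nonneg_left e1 (sq_nonneg (nu k (lab i)))
      have e4 : 0 ≤ LTd.pd 0 (F N i) z ^ 2 + nu k (lab i) ^ 2 * F N i z ^ 2 +
          Real.exp (2 * z 0) * ∑ j : Fin m, LTd.pd j.succ (F N i) z ^ 2 := by positivity
      rw [Real.norm_of_nonneg e4]
      have := e0 0
      linarith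
    · refine Eventually.of_forall fun z => ?_
      exact ((((hpdlim i 0 z).pow 2).add (((hFlim i z).pow 2).const_mul _)).add
        ((tendsto_finsetSum _ fun j _ => (hpdlim i j.succ z).pow 2).const_mul _))
  have hE' := tendsto_finsetSum Finset.univ fun i _ => (hE i).const_mul ((g (lab i) : ℝ))
  set E : ℝ := ∑ i, (g (lab i) : ℝ) * ∫ z, (LTd.pd 0 (w i) z ^ 2 + nu k (lab i) ^ 2 * w i z ^ 2 +
    Real.exp (2 * z 0) * ∑ j : Fin m, LTd.pd j.succ (w i) z ^ 2) with hEdef
  have hE0 : 0 ≤ E := Finset.sum_nonneg fun i _ => mul_nonneg (Nat.cast_nonneg _)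
    (integral_nonneg fun z => by positivity)
  -- the condition on the Gram matrix
  have hgw : ∀ i j, Integrable fun z => Real.exp (2 * z 0) * (w i z * w j z) := fun i j =>
    int_mul (hw i).continuous (hw j).continuous (i0 i) (i0 j)
  have hBN : ∀ N, BlockLe lab (Matrix.of fun i j => ∫ z, Real.exp (2 * z 0) *
      (F N i z * F N j z)) := by
    intro N l c hc
    refine le_trans ?_ (hB l c hc)
    rw [gram_eq (w) hgw c, gram_eq (F N) (fun i j =>
      ((cont_exp0 2).mul ((f1 N i).continuous.mul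
        (f1 N j).continuous)).integrable_of_hasCompactSupport
        ((f2 N i).mul_right.mul_left)) c]
    refine integral_mono_of_nonneg (Eventually.of_forall fun z => by positivity) ?_
      (Eventually.of_forall fun z => ?_)
    · have h1 : ∀ z : Fin (m + 1) → ℝ, Real.exp (2 * z 0) * (∑ i, c i * w i z) ^ 2 =
          ∑ i, ∑ j, c i * c j * (Real.exp (2 * z 0) * (w i z * w j z)) := by
        intro z
        rw [sq, Finset.sum_mul_sum, Finset.mul_sum]
        refine Finset.sum_congr rfl fun i _ => ?_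
        rw [Finset.mul_sum]
        exact Finset.sum_congr rfl fun j _ => by ring
      simp only [h1]
      exact integrable_finsetSum _ fun i _ => integrable_finsetSum _ fun j _ =>
        (hgw i j).const_mul _
    · have h2 : ∑ i, c i * F N i z = χ N z * ∑ i, c i * w i z := by
        rw [Finset.mul_sum]
        exact Finset.sum_congr rfl fun i _ => by simp only [hF]; ring
      change Real.exp (2 * z 0) * (∑ i, c i * F N i z) ^ 2 ≤
        Real.exp (2 * z 0) * (∑ i, c i * w i z) ^ 2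
      rw [h2, mul_pow]
      have : χ N z ^ 2 ≤ 1 := pow_le_one₀ (c3 N z).1 (c3 N z).2
      refine mul_le_mul_of_nonneg_left ?_ (Real.exp_pos _).le
      nlinarith [sq_nonneg (∑ i, c i * w i z)]
  have hbound : ∀ N : ℕ, ∫ z, Real.exp (ex k m * z 0) *
      (∑ i, (g (lab i) : ℝ) * F N i z ^ 2) ^ p ≤
      (∑ i, (g (lab i) : ℝ) * ∫ z, (LTd.pd 0 (F N i) z ^ 2 + nu k (lab i) ^ 2 * F N i z ^ 2 +
      Real.exp (2 * z 0) * ∑ j : Fin m, LTd.pd j.succ (F N i) z ^ 2)) / b := by
    intro N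
    rw [le_div_iff₀' hb]
    exact hK k hk m n (F N) (f1 N) (f2 N) lab g hg (hBN N)
  have hcont : ∀ N, Continuous fun z : Fin (m + 1) → ℝ => Real.exp (ex k m * z 0) *
      (∑ i, (g (lab i) : ℝ) * F N i z ^ 2) ^ p := by
    intro N
    refine (cont_exp0 _).mul (Continuous.rpow_const ?_ (fun x => Or.inr hp.le))
    exact continuous_finsetSum _ fun i _ => continuous_const.mul ((f1 N i).continuous.pow 2)
  have hcs : ∀ N, HasCompactSupport fun z : Fin (m + 1) → ℝ => Real.exp (ex k m * z 0) *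
      (∑ i, (g (lab i) : ℝ) * F N i z ^ 2) ^ p := by
    intro N
    refine HasCompactSupport.intro (K := ⋃ i, tsupport (F N i))
      (isCompact_iUnion fun i => f2 N i) ?_
    intro x hx
    have : ∀ i, F N i x = 0 := by
      intro i
      by_contra h
      exact hx (mem_iUnion.2 ⟨i, subset_tsupport _ h⟩)
    simp only [this]
    simp [Real.zero_rpow hp.ne']
  have hint := fun N => (hcont N).integrable_of_hasCompactSupport (μ := volume) (hcs N)
  have hnn : ∀ N (z : Fin (m + 1) → ℝ), 0 ≤ Real.exp (ex k m * z 0) *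
      (∑ i, (g (lab i) : ℝ) * F N i z ^ 2) ^ p := fun N z =>
    mul_nonneg (Real.exp_pos _).le (Real.rpow_nonneg (Finset.sum_nonneg fun i _ => by positivity) _)
  have hnn' : ∀ z : Fin (m + 1) → ℝ, 0 ≤ Real.exp (ex k m * z 0) *
      (∑ i, (g (lab i) : ℝ) * w i z ^ 2) ^ p := fun z =>
    mul_nonneg (Real.exp_pos _).le (Real.rpow_nonneg (Finset.sum_nonneg fun i _ => by positivity) _)
  have hlim : ∀ z : Fin (m + 1) → ℝ, Tendsto (fun N => Real.exp (ex k m * z 0) *
      (∑ i, (g (lab i) : ℝ) * F N i z ^ 2) ^ p) atTop (𝓝 (Real.exp (ex k m * z 0) *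
      (∑ i, (g (lab i) : ℝ) * w i z ^ 2) ^ p)) := by
    intro z
    exact ((tendsto_finsetSum _ fun i _ => ((hFlim i z).pow 2).const_mul _).rpow_const
      (Or.inr hp.le)).const_mul _
  have haesm : AEStronglyMeasurable (fun z : Fin (m + 1) → ℝ => Real.exp (ex k m * z 0) *
      (∑ i, (g (lab i) : ℝ) * w i z ^ 2) ^ p) volume :=
    aestronglyMeasurable_of_tendsto_ae atTop (fun N => (hint N).aestronglyMeasurable)
      (Eventually.of_forall hlim)
  have hfatou : ∫⁻ z : Fin (m + 1) → ℝ, ENNReal.ofReal (Real.exp (ex k m * z 0) *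
      (∑ i, (g (lab i) : ℝ) * w i z ^ 2) ^ p) ≤ ENNReal.ofReal (E / b) := by
    calc ∫⁻ z : Fin (m + 1) → ℝ, ENNReal.ofReal (Real.exp (ex k m * z 0) *
          (∑ i, (g (lab i) : ℝ) * w i z ^ 2) ^ p)
        = ∫⁻ z : Fin (m + 1) → ℝ, liminf (fun N => ENNReal.ofReal (Real.exp (ex k m * z 0) *
          (∑ i, (g (lab i) : ℝ) * F N i z ^ 2) ^ p)) atTop := by
          apply lintegral_congr
          intro z
          exact ((ENNReal.continuous_ofReal.tendsto _).comp (hlim z)).liminf_eq.symm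
      _ ≤ liminf (fun N => ∫⁻ z : Fin (m + 1) → ℝ, ENNReal.ofReal (Real.exp (ex k m * z 0) *
          (∑ i, (g (lab i) : ℝ) * F N i z ^ 2) ^ p)) atTop :=
          lintegral_liminf_le' fun N => (hcont N).measurable.ennreal_ofReal.aemeasurable
      _ ≤ liminf (fun N : ℕ => ENNReal.ofReal ((∑ i, (g (lab i) : ℝ) *
          ∫ z, (LTd.pd 0 (F N i) z ^ 2 + nu k (lab i) ^ 2 * F N i z ^ 2 +
          Real.exp (2 * z 0) * ∑ j : Fin m, LTd.pd j.succ (F N i) z ^ 2)) / b)) atTop := by
          refine liminf_le_liminf (Eventually.of_forall fun N => ?_)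
          change ∫⁻ z : Fin (m + 1) → ℝ, ENNReal.ofReal (Real.exp (ex k m * z 0) *
            (∑ i, (g (lab i) : ℝ) * F N i z ^ 2) ^ p) ≤ _
          rw [← ofReal_integral_eq_lintegral_ofReal (hint N) (Eventually.of_forall (hnn N))]
          exact ENNReal.ofReal_le_ofReal (hbound N)
      _ = ENNReal.ofReal (E / b) := by
          apply Tendsto.liminf_eq
          exact (ENNReal.continuous_ofReal.tendsto _).comp (hE'.div_const b)
  have hI : Integrable (fun z : Fin (m + 1) → ℝ => Real.exp (ex k m * z 0) *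
      (∑ i, (g (lab i) : ℝ) * w i z ^ 2) ^ p) := by
    refine ⟨haesm, ?_⟩
    rw [hasFiniteIntegral_iff_ofReal (Eventually.of_forall hnn')]
    exact lt_of_le_of_lt hfatou ENNReal.ofReal_lt_top
  refine ⟨hI, ?_⟩
  rw [← le_div_iff₀' hb, integral_eq_lintegral_of_nonneg_ae (Eventually.of_forall hnn') haesm]
  exact ENNReal.toReal_le_of_le_ofReal (by positivity) hfatou

end

end Run7.h646.LK
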