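import Pool.Agent.Run7.h894.LK.Stm
import Pool.Agent.Helper717.LT.P_gram_complex

/-!
# Project LK (helper894), piece LOGK: complex families from real ones
-/

set_option autoImplicit false

open MeasureTheory Set Filter Topology
open scoped Matrix

namespace Run7.h646.LK

open Pool.Agent.Run7.H894.LK

noncomputable section

/-- `S_CUT` for families indexed by a finite type -/
theorem cut_fin (h : S_CUT) {k : ℕ} (hk : 6 ≤ k) (m : ℕ) {I : Type} [Fintype I]
    (w : I → (Fin (m + 1) → ℝ) → ℝ) (hw : ∀ i, ContDiff ℝ 1 (w i))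
    (i0 : ∀ i, Integrable fun z => Real.exp (2 * z 0) * w i z ^ 2)
    (i1 : ∀ i, Integrable fun z => w i z ^ 2)
    (i2 : ∀ i, Integrable fun z => LTd.pd 0 (w i) z ^ 2)
    (i3 : ∀ i, ∀ j : Fin m, Integrable fun z => Real.exp (2 * z 0) * LTd.pd j.succ (w i) z ^ 2)
    (lab : I → ℕ) (g : ℕ → ℕ)
    (hg : ∀ i, 1 ≤ g (lab i) ∧ g (lab i) ≤ Pool.Agent.N537.RS.hdim k (lab i))
    (hB : ∀ (l : ℕ) (c : I → ℝ), (∀ i, lab i ≠ l → c i = 0) →
      ∑ i, ∑ j, c i * c j * ∫ z, Real.exp (2 * z 0) * (w i z * w j z) ≤ ∑ i, c i ^ 2) :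
    Integrable (fun z : Fin (m + 1) → ℝ => Real.exp (ex k m * z 0) *
      (∑ i, (g (lab i) : ℝ) * w i z ^ 2) ^ (1 + 2 / ((k : ℝ) + m))) ∧
    LTd.bco ((m : ℝ) / 2) ((k : ℝ) / 2 + 1) (Kp k) *
      ∫ z : Fin (m + 1) → ℝ, Real.exp (ex k m * z 0) *
        (∑ i, (g (lab i) : ℝ) * w i z ^ 2) ^ (1 + 2 / ((k : ℝ) + m)) ≤
    ∑ i, (g (lab i) : ℝ) * ∫ z, (LTd.pd 0 (w i) z ^ 2 + nu k (lab i) ^ 2 * w i z ^ 2 +
      Real.exp (2 * z 0) * ∑ j : Fin m, LTd.pd j.succ (w i) z ^ 2) := by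
  set e : Fin (Fintype.card I) ≃ I := (Fintype.equivFin I).symm with he
  have key := h k hk m (Fintype.card I) (fun i => w (e i)) (fun i => hw _) (fun i => i0 _)
    (fun i => i1 _) (fun i => i2 _) (fun i => i3 _) (fun i => lab (e i)) g (fun i => hg _) ?_
  · have h1 : ∀ z : Fin (m + 1) → ℝ, ∑ i, (g (lab (e i)) : ℝ) * w (e i) z ^ 2 =
        ∑ i, (g (lab i) : ℝ) * w i z ^ 2 := fun z =>
      e.sum_comp (fun i => (g (lab i) : ℝ) * w i z ^ 2)
    have h2 := e.sum_comp (fun i => (g (lab i) : ℝ) * ∫ z, (LTd.pd 0 (w i) z ^ 2 +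
      nu k (lab i) ^ 2 * w i z ^ 2 +
      Real.exp (2 * z 0) * ∑ j : Fin m, LTd.pd j.succ (w i) z ^ 2))
    simp only [h1, h2] at key
    exact key
  · intro l c hc
    have h3 := hB l (fun i => c (e.symm i)) (fun i hi => hc _ (by
      change lab (e (e.symm i)) ≠ l
      rwa [Equiv.apply_symm_apply]))
    rw [← e.sum_comp, ← e.sum_comp (fun i => c (e.symm i) ^ 2)] at h3
    simp only [Equiv.symm_apply_apply] at h3
    refine le_trans (le_of_eq ?_) h3
    unfold bf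
    refine Finset.sum_congr rfl fun i _ => ?_
    rw [← e.sum_comp (fun j => c i * c (e.symm j) *
      ∫ z, Real.exp (2 * z 0) * (w (e i) z * w j z))]
    refine Finset.sum_congr rfl fun j _ => ?_
    rw [Equiv.symm_apply_apply]
    rfl

theorem int_of_le {d : ℕ} {f F : (Fin d → ℝ) → ℝ} (hF : Integrable F) (hf : Continuous f)
    (h0 : ∀ z, 0 ≤ f z) (h1 : ∀ z, f z ≤ F z) : Integrable f :=
  Integrable.mono' hF hf.aestronglyMeasurable
    (Eventually.of_forall fun z => by rw [Real.norm_of_nonneg (h0 z)]; exact h1 z)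

theorem re_sq_le (c : ℂ) : c.re ^ 2 ≤ ‖c‖ ^ 2 := by
  rw [Complex.sq_norm, Complex.normSq_apply]
  nlinarith [sq_nonneg c.im]

theorem im_sq_le (c : ℂ) : c.im ^ 2 ≤ ‖c‖ ^ 2 := by
  rw [Complex.sq_norm, Complex.normSq_apply]
  nlinarith [sq_nonneg c.re]

theorem re_add_im (c : ℂ) : c.re ^ 2 + c.im ^ 2 = ‖c‖ ^ 2 := by
  rw [Complex.sq_norm, Complex.normSq_apply]
  ring

theorem pd_re {d : ℕ} {φ : (Fin d → ℝ) → ℂ} (h : ContDiff ℝ 1 φ) (j : Fin d) (z : Fin d → ℝ) :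
    LTd.pd j (fun z => (φ z).re) z = (pdc j φ z).re := by
  have h1 : HasFDerivAt φ (fderiv ℝ φ z) z := (h.differentiable one_ne_zero z).hasFDerivAt
  have h2 : HasFDerivAt (fun z => (φ z).re) (Complex.reCLM.comp (fderiv ℝ φ z)) z :=
    Complex.reCLM.hasFDerivAt.comp z h1
  unfold LTd.pd pdc
  rw [h2.fderiv]
  rfl

theorem pd_im {d : ℕ} {φ : (Fin d → ℝ) → ℂ} (h : ContDiff ℝ 1 φ) (j : Fin d) (z : Fin d → ℝ) :
    LTd.pd j (fun z => (φ z).im) z = (pdc j φ z).im := by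
  have h1 : HasFDerivAt φ (fderiv ℝ φ z) z := (h.differentiable one_ne_zero z).hasFDerivAt
  have h2 : HasFDerivAt (fun z => (φ z).im) (Complex.imCLM.comp (fderiv ℝ φ z)) z :=
    Complex.imCLM.hasFDerivAt.comp z h1
  unfold LTd.pd pdc
  rw [h2.fderiv]
  rfl

theorem cont_pdc {d : ℕ} {φ : (Fin d → ℝ) → ℂ} (h : ContDiff ℝ 1 φ) (j : Fin d) :
    Continuous (pdc j φ) :=
  (h.continuous_fderiv one_ne_zero).clm_apply continuous_const

/-- the index type -/
abbrev IX (Λ : Finset ℕ) (N : ℕ → ℕ) : Type := Σ l : Λ, (Fin (N l.1) ⊕ Fin (N l.1))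

/-- the real functions -/
def wf {m : ℕ} (Λ : Finset ℕ) (N : ℕ → ℕ) (φ : ∀ l, Fin (N l) → (Fin (m + 1) → ℝ) → ℂ)
    (i : IX Λ N) : (Fin (m + 1) → ℝ) → ℝ :=
  match i with
  | ⟨l, Sum.inl n⟩ => fun z => (φ l.1 n z).re
  | ⟨l, Sum.inr n⟩ => fun z => (φ l.1 n z).im

theorem sum_IX (Λ : Finset ℕ) (N : ℕ → ℕ) (f : IX Λ N → ℝ) (F : ∀ l, Fin (N l) → ℝ)
    (h : ∀ (l : Λ) n, f ⟨l, Sum.inl n⟩ + f ⟨l, Sum.inr n⟩ = F l.1 n) :
    ∑ i, f i = ∑ l ∈ Λ, ∑ n, F l n := by
  rw [Fintype.sum_sigma, ← Finset.sum_coe_sort Λ (fun l => ∑ n, F l n)]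
  refine Finset.sum_congr rfl fun l _ => ?_
  rw [Fintype.sum_sum_type, ← Finset.sum_add_distrib]
  exact Finset.sum_congr rfl fun n _ => h l n

theorem single_IX (Λ : Finset ℕ) (N : ℕ → ℕ) (f : IX Λ N → ℝ) (l₀ : ℕ) (h : l₀ ∈ Λ)
    (h0 : ∀ i : IX Λ N, i.1.1 ≠ l₀ → f i = 0) :
    ∑ i, f i = ∑ n, (f ⟨⟨l₀, h⟩, Sum.inl n⟩ + f ⟨⟨l₀, h⟩, Sum.inr n⟩) := by
  rw [Fintype.sum_sigma, Finset.sum_eq_single (⟨l₀, h⟩ : Λ)]
  · rw [Fintype.sum_sum_type, ← Finset.sum_add_distrib]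
  · intro l _ hl
    exact Finset.sum_eq_zero fun x _ => h0 _ fun h' => hl (Subtype.ext h')
  · intro h'
    exact absurd (Finset.mem_univ _) h'

theorem int_mul' {m : ℕ} {u v : (Fin (m + 1) → ℝ) → ℝ} (hu : Continuous u) (hv : Continuous v)
    (h1 : Integrable fun z => Real.exp (2 * z 0) * u z ^ 2)
    (h2 : Integrable fun z => Real.exp (2 * z 0) * v z ^ 2) :
    Integrable fun z => Real.exp (2 * z 0) * (u z * v z) := by
  refine Integrable.mono' (h1.add h2)
    ((Real.continuous_exp.comp (continuous_const.mul (continuous_apply 0))).mul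
      (hu.mul hv)).aestronglyMeasurable (Eventually.of_forall fun z => ?_)
  rw [Real.norm_eq_abs, abs_mul, abs_of_pos (Real.exp_pos _)]
  change _ ≤ Real.exp (2 * z 0) * u z ^ 2 + Real.exp (2 * z 0) * v z ^ 2
  rw [← mul_add]
  refine mul_le_mul_of_nonneg_left ?_ (Real.exp_pos _).le
  rw [abs_mul]
  nlinarith [sq_nonneg (|u z| - |v z|), sq_abs (u z), sq_abs (v z), abs_nonneg (u z),
    abs_nonneg (v z), mul_nonneg (abs_nonneg (u z)) (abs_nonneg (v z))]

theorem wf_cont {m : ℕ} {Λ : Finset ℕ} {N : ℕ → ℕ}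
    {φ : ∀ l, Fin (N l) → (Fin (m + 1) → ℝ) → ℂ} (h : ∀ (l : Λ) n, ContDiff ℝ 1 (φ l.1 n))
    (i : IX Λ N) : Continuous (wf Λ N φ i) := by
  rcases i with ⟨l, n | n⟩
  · exact Complex.continuous_re.comp (h l n).continuous
  · exact Complex.continuous_im.comp (h l n).continuous

theorem wf_int {m : ℕ} {Λ : Finset ℕ} {N : ℕ → ℕ}
    {φ : ∀ l, Fin (N l) → (Fin (m + 1) → ℝ) → ℂ} (h : ∀ l ∈ Λ, ∀ n, FnY (φ l n))
    (i : IX Λ N) : Integrable fun z => Real.exp (2 * z 0) * wf Λ N φ i z ^ 2 := by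
  have hexp : Continuous fun z : Fin (m + 1) → ℝ => Real.exp (2 * z 0) :=
    Real.continuous_exp.comp (continuous_const.mul (continuous_apply 0))
  rcases i with ⟨l, n | n⟩
  · exact int_of_le (h l.1 l.2 n).i0
      (hexp.mul ((Complex.continuous_re.comp (h l.1 l.2 n).smooth.continuous).pow 2))
      (fun z => by positivity)
      (fun z => mul_le_mul_of_nonneg_left (re_sq_le _) (Real.exp_pos _).le)
  · exact int_of_le (h l.1 l.2 n).i0
      (hexp.mul ((Complex.continuous_im.comp (h l.1 l.2 n).smooth.continuous).pow 2))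
      (fun z => by positivity)
      (fun z => mul_le_mul_of_nonneg_left (im_sq_le _) (Real.exp_pos _).le)

theorem gram_wf {m : ℕ} {Λ : Finset ℕ} {N : ℕ → ℕ}
    {φ : ∀ l, Fin (N l) → (Fin (m + 1) → ℝ) → ℂ} (hφ : ∀ l ∈ Λ, ∀ n, FnY (φ l n))
    (ho : ∀ l ∈ Λ, ∀ a b, ∫ z, (Real.exp (2 * z 0) : ℂ) * (star (φ l a z) * φ l b z) =
      if a = b then (1 : ℂ) else 0) (l₀ : ℕ) (c : IX Λ N → ℝ)
    (hc : ∀ i : IX Λ N, i.1.1 ≠ l₀ → c i = 0) :
    ∑ i, ∑ j, c i * c j * ∫ z, Real.exp (2 * z 0) * (wf Λ N φ i z * wf Λ N φ j z) ≤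
      ∑ i, c i ^ 2 := by
  by_cases hl : l₀ ∈ Λ
  · have hw : ∀ i j, Integrable fun z => Real.exp (2 * z 0) * (wf Λ N φ i z * wf Λ N φ j z) :=
      fun i j => int_mul' (wf_cont (fun l n => (hφ l.1 l.2 n).smooth) i)
        (wf_cont (fun l n => (hφ l.1 l.2 n).smooth) j) (wf_int hφ i) (wf_int hφ j)
    have h1 : ∑ i, ∑ j, c i * c j * ∫ z, Real.exp (2 * z 0) * (wf Λ N φ i z * wf Λ N φ j z) =
        ∫ z, Real.exp (2 * z 0) * (∑ i, c i * wf Λ N φ i z) ^ 2 := by
      have h1 : ∀ z : Fin (m + 1) → ℝ, Real.exp (2 * z 0) * (∑ i, c i * wf Λ N φ i z) ^ 2 =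
          ∑ i, ∑ j, c i * c j * (Real.exp (2 * z 0) * (wf Λ N φ i z * wf Λ N φ j z)) := by
        intro z
        rw [sq, Finset.sum_mul_sum, Finset.mul_sum]
        refine Finset.sum_congr rfl fun i _ => ?_
        rw [Finset.mul_sum]
        exact Finset.sum_congr rfl fun j _ => by ring
      simp only [h1]
      rw [integral_finsetSum _ fun i _ => integrable_finsetSum _ fun j _ => (hw i j).const_mul _]
      refine Finset.sum_congr rfl fun i _ => ?_
      rw [integral_finsetSum _ fun j _ => (hw i j).const_mul _]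
      refine Finset.sum_congr rfl fun j _ => ?_
      rw [integral_const_mul]
    rw [h1, single_IX Λ N (fun i => c i ^ 2) l₀ hl (fun i hi => by rw [hc i hi]; ring)]
    set u : Fin (N l₀) → (Fin (m + 1) → ℝ) → ℂ :=
      fun n z => (Real.exp (z 0) : ℂ) * φ l₀ n z with hu
    have hexp1 : Continuous fun z : Fin (m + 1) → ℝ => (Real.exp (z 0) : ℂ) :=
      Complex.continuous_ofReal.comp (Real.continuous_exp.comp (continuous_apply 0))
    have hucont : ∀ n, Continuous (u n) := fun n => hexp1.mul (hφ l₀ hl n).smooth.continuous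
    have hexp2 : ∀ z : Fin (m + 1) → ℝ, Real.exp (2 * z 0) = Real.exp (z 0) ^ 2 := by
      intro z
      rw [sq, ← Real.exp_add]; ring_nf
    have hu2 : ∀ n, MemLp (u n) 2 volume := by
      intro n
      rw [memLp_two_iff_integrable_sq_norm (hucont n).aestronglyMeasurable]
      refine (hφ l₀ hl n).i0.congr (Eventually.of_forall fun z => ?_)
      simp only [hu, norm_mul, Complex.norm_real, Real.norm_of_nonneg (Real.exp_pos _).le]
      rw [hexp2]; ring
    have huo : ∀ i j, ∫ x, (starRingEnd ℂ) (u i x) * u j x = if i = j then 1 else 0 := by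
      intro i j
      rw [← ho l₀ hl i j]
      refine integral_congr_ae (Eventually.of_forall fun z => ?_)
      simp only [hu, map_mul, Complex.conj_ofReal]
      rw [hexp2]
      push_cast
      change _ = _ * ((starRingEnd ℂ) (φ l₀ i z) * φ l₀ j z)
      ring
    have h3 := LTd.gram_complex u hu2 huo (fun n => c ⟨⟨l₀, hl⟩, Sum.inl n⟩)
      (fun n => c ⟨⟨l₀, hl⟩, Sum.inr n⟩)
    refine le_trans (le_of_eq ?_) h3
    refine integral_congr_ae (Eventually.of_forall fun z => ?_)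
    change Real.exp (2 * z 0) * (∑ i, c i * wf Λ N φ i z) ^ 2 = _
    rw [single_IX Λ N (fun i => c i * wf Λ N φ i z) l₀ hl (fun i hi => by rw [hc i hi]; ring)]
    have h4 : ∀ n, c ⟨⟨l₀, hl⟩, Sum.inl n⟩ * (u n z).re + c ⟨⟨l₀, hl⟩, Sum.inr n⟩ * (u n z).im =
        Real.exp (z 0) * (c ⟨⟨l₀, hl⟩, Sum.inl n⟩ * wf Λ N φ ⟨⟨l₀, hl⟩, Sum.inl n⟩ z +
          c ⟨⟨l₀, hl⟩, Sum.inr n⟩ * wf Λ N φ ⟨⟨l₀, hl⟩, Sum.inr n⟩ z) := by
      intro n
      simp only [hu, wf, Complex.re_ofReal_mul, Complex.im_ofReal_mul]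
      ring
    simp only [h4]
    rw [← Finset.mul_sum, mul_pow, hexp2]
  · have h0 : ∀ i, c i = 0 := fun i => hc i fun h => hl (h ▸ i.1.2)
    simp [h0]

theorem t_LOGK (hC : S_CUT) : S_LOGK := by
  intro k hk m Λ g N hg φ hφ ho
  have hsm : ∀ (l : Λ) n, ContDiff ℝ 1 (φ l.1 n) := fun l n => (hφ l.1 l.2 n).smooth
  have hexp : Continuous fun z : Fin (m + 1) → ℝ => Real.exp (2 * z 0) :=
    Real.continuous_exp.comp (continuous_const.mul (continuous_apply 0))
  have key := cut_fin hC hk m (wf Λ N φ) ?_ ?_ ?_ ?_ ?_ (fun i => i.1.1) g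
    (fun i => hg _ i.1.2) ?_
  · -- rearrange the sums
    have h1 : ∀ z : Fin (m + 1) → ℝ, ∑ i : IX Λ N, (g i.1.1 : ℝ) * wf Λ N φ i z ^ 2 =
        ∑ l ∈ Λ, (g l : ℝ) * ∑ n, ‖φ l n z‖ ^ 2 := by
      intro z
      rw [sum_IX Λ N _ (fun l n => (g l : ℝ) * ‖φ l n z‖ ^ 2)]
      · exact Finset.sum_congr rfl fun l _ => (Finset.mul_sum _ _ _).symm
      · intro l n
        rw [← re_add_im]
        change (g l.1 : ℝ) * (φ l.1 n z).re ^ 2 + (g l.1 : ℝ) * (φ l.1 n z).im ^ 2 = _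
        ring
    have h2 : ∑ i : IX Λ N, (g i.1.1 : ℝ) * ∫ z, (LTd.pd 0 (wf Λ N φ i) z ^ 2 +
        nu k i.1.1 ^ 2 * wf Λ N φ i z ^ 2 +
        Real.exp (2 * z 0) * ∑ j : Fin m, LTd.pd j.succ (wf Λ N φ i) z ^ 2) =
        ∑ l ∈ Λ, (g l : ℝ) * ∑ n, ∫ z, (‖pdc 0 (φ l n) z‖ ^ 2 + nu k l ^ 2 * ‖φ l n z‖ ^ 2 +
          Real.exp (2 * z 0) * ∑ j : Fin m, ‖pdc j.succ (φ l n) z‖ ^ 2) := by
      rw [sum_IX Λ N _ (fun l n => (g l : ℝ) * ∫ z, (‖pdc 0 (φ l n) z‖ ^ 2 +
        nu k l ^ 2 * ‖φ l n z‖ ^ 2 +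
          Real.exp (2 * z 0) * ∑ j : Fin m, ‖pdc j.succ (φ l n) z‖ ^ 2))]
      · exact Finset.sum_congr rfl fun l _ => (Finset.mul_sum _ _ _).symm
      · intro l n
        have hl := hφ l.1 l.2 n
        rw [← mul_add]
        congr 1
        have e1 : Integrable fun z : Fin (m + 1) → ℝ => (LTd.pd 0 (wf Λ N φ ⟨l, Sum.inl n⟩) z ^ 2 +
            nu k l.1 ^ 2 * wf Λ N φ ⟨l, Sum.inl n⟩ z ^ 2 +
            Real.exp (2 * z 0) * ∑ j : Fin m,
              LTd.pd j.succ (wf Λ N φ ⟨l, Sum.inl n⟩) z ^ 2) := by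
          simp only [wf, pd_re (hsm l n), Finset.mul_sum]
          refine ((int_of_le hl.i2 ((Complex.continuous_re.comp (cont_pdc (hsm l n) 0)).pow 2)
            (fun z => sq_nonneg _) (fun z => re_sq_le _)).add
            ((int_of_le hl.i1 ((Complex.continuous_re.comp (hsm l n).continuous).pow 2)
            (fun z => sq_nonneg _) (fun z => re_sq_le _)).const_mul _)).add
            (integrable_finsetSum _ fun j _ => ?_)
          exact int_of_le (hl.i3 j)
            (hexp.mul ((Complex.continuous_re.comp (cont_pdc (hsm l n) j.succ)).pow 2))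
            (fun z => by positivity)
            (fun z => mul_le_mul_of_nonneg_left (re_sq_le _) (Real.exp_pos _).le)
        have e2 : Integrable fun z : Fin (m + 1) → ℝ => (LTd.pd 0 (wf Λ N φ ⟨l, Sum.inr n⟩) z ^ 2 +
            nu k l.1 ^ 2 * wf Λ N φ ⟨l, Sum.inr n⟩ z ^ 2 +
            Real.exp (2 * z 0) * ∑ j : Fin m,
              LTd.pd j.succ (wf Λ N φ ⟨l, Sum.inr n⟩) z ^ 2) := by
          simp only [wf, pd_im (hsm l n), Finset.mul_sum]
          refine ((int_of_le hl.i2 ((Complex.continuous_im.comp (cont_pdc (hsm l n) 0)).pow 2)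
            (fun z => sq_nonneg _) (fun z => im_sq_le _)).add
            ((int_of_le hl.i1 ((Complex.continuous_im.comp (hsm l n).continuous).pow 2)
            (fun z => sq_nonneg _) (fun z => im_sq_le _)).const_mul _)).add
            (integrable_finsetSum _ fun j _ => ?_)
          exact int_of_le (hl.i3 j)
            (hexp.mul ((Complex.continuous_im.comp (cont_pdc (hsm l n) j.succ)).pow 2))
            (fun z => by positivity)
            (fun z => mul_le_mul_of_nonneg_left (im_sq_le _) (Real.exp_pos _).le)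
        rw [← integral_add e1 e2]
        refine integral_congr_ae (Eventually.of_forall fun z => ?_)
        simp only [wf, pd_re (hsm l n), pd_im (hsm l n), ← re_add_im, Finset.sum_add_distrib]
        ring
    rw [h2] at key
    simp only [h1] at key
    exact key
  · rintro ⟨l, n | n⟩
    · exact Complex.reCLM.contDiff.comp (hsm l n)
    · exact Complex.imCLM.contDiff.comp (hsm l n)
  · rintro ⟨l, n | n⟩
    · exact int_of_le (hφ l.1 l.2 n).i0
        (hexp.mul ((Complex.continuous_re.comp (hsm l n).continuous).pow 2))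
        (fun z => by positivity)
        (fun z => mul_le_mul_of_nonneg_left (re_sq_le _) (Real.exp_pos _).le)
    · exact int_of_le (hφ l.1 l.2 n).i0
        (hexp.mul ((Complex.continuous_im.comp (hsm l n).continuous).pow 2))
        (fun z => by positivity)
        (fun z => mul_le_mul_of_nonneg_left (im_sq_le _) (Real.exp_pos _).le)
  · rintro ⟨l, n | n⟩
    · exact int_of_le (hφ l.1 l.2 n).i1
        ((Complex.continuous_re.comp (hsm l n).continuous).pow 2)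
        (fun z => sq_nonneg _) (fun z => re_sq_le _)
    · exact int_of_le (hφ l.1 l.2 n).i1
        ((Complex.continuous_im.comp (hsm l n).continuous).pow 2)
        (fun z => sq_nonneg _) (fun z => im_sq_le _)
  · rintro ⟨l, n | n⟩
    · simp only [wf, pd_re (hsm l n)]
      exact int_of_le (hφ l.1 l.2 n).i2
        ((Complex.continuous_re.comp (cont_pdc (hsm l n) 0)).pow 2)
        (fun z => sq_nonneg _) (fun z => re_sq_le _)
    · simp only [wf, pd_im (hsm l n)]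
      exact int_of_le (hφ l.1 l.2 n).i2
        ((Complex.continuous_im.comp (cont_pdc (hsm l n) 0)).pow 2)
        (fun z => sq_nonneg _) (fun z => im_sq_le _)
  · rintro ⟨l, n | n⟩ j
    · simp only [wf, pd_re (hsm l n)]
      exact int_of_le ((hφ l.1 l.2 n).i3 j)
        (hexp.mul ((Complex.continuous_re.comp (cont_pdc (hsm l n) j.succ)).pow 2))
        (fun z => by positivity)
        (fun z => mul_le_mul_of_nonneg_left (re_sq_le _) (Real.exp_pos _).le)
    · simp only [wf, pd_im (hsm l n)]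
      exact int_of_le ((hφ l.1 l.2 n).i3 j)
        (hexp.mul ((Complex.continuous_im.comp (cont_pdc (hsm l n) j.succ)).pow 2))
        (fun z => by positivity)
        (fun z => mul_le_mul_of_nonneg_left (im_sq_le _) (Real.exp_pos _).le)
  · exact fun l₀ c hc => gram_wf hφ ho l₀ c hc

end

end Run7.h646.LK
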